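import Pool.Agent.H86.KazD

set_option autoImplicit false

namespace Pool.Agent.Results.MP_99d66e_al.NoSOS

open Filter Pool.Agent.H86

/-- the Hilbert space `ℓ²(X)` -/
abbrev L2 (X : Type) : Type := lp (fun _ : X => ℂ) 2

open Classical in
/-- the basis vector `δ_x` of `ℓ²(X)` -/
noncomputable def dl (X : Type) (x : X) : L2 X := lp.single 2 x (1 : ℂ)

/-- `G` is a box space of graphs with pieces `X_i = {x | l x = i}` -/
def IsBox {X : Type} (G : SimpleGraph X) (l : X → ℕ) : Prop :=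
  (∀ x y, G.Adj x y → l x = l y) ∧ (∀ i, {x | l x = i}.Finite) ∧
    Tendsto (fun i => {x | l x = i}.ncard) atTop atTop ∧
    ∃ D : ℕ, ∀ x, (G.neighborSet x).encard ≤ D

/-- `Δ` is the graph Laplacian -/
def IsLaplacian {X : Type} (G : SimpleGraph X) (Δ : L2 X →L[ℂ] L2 X) : Prop :=
  ∀ (ξ : L2 X) (x : X), Δ ξ x = ∑ᶠ y ∈ G.neighborSet x, (ξ x - ξ y)

/-- the restriction of `π` to `P` is a unital star homomorphism -/
def IsStarHomOn {A B : Type} [Ring A] [Algebra ℂ A] [Star A] [Ring B] [Algebra ℂ B] [Star B]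
    (P : Set A) (π : A → B) : Prop :=
  π 1 = 1 ∧ ∀ S ∈ P, ∀ T ∈ P, π (S + T) = π S + π T ∧ π (S * T) = π S * π T ∧
    (∀ a : ℂ, π (a • T) = a • π T) ∧ π (star T) = star (π T)

/-- `a` is a finite sum of squares `ξ* ξ` with `ξ` in `P` -/
def IsSOS {A : Type} [Ring A] [Star A] (P : Set A) (a : A) : Prop :=
  ∃ (n : ℕ) (ξ : Fin n → A), (∀ k, ξ k ∈ P) ∧ a = ∑ k, star (ξ k) * ξ k

variable {X H : Type} [NormedAddCommGroup H] [InnerProductSpace ℂ H] [CompleteSpace H]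

/-- operators of finite propagation with respect to the vectors `e x` -/
def RoeAlg (G : SimpleGraph X) (e : X → H) : Set (H →L[ℂ] H) :=
  {T | ∃ R : ℕ, 0 < R ∧ ∀ x y, (R : ℕ∞) ≤ G.edist x y → inner ℂ (e y) (T (e x)) = 0}

/-- a uniform spectral gap of `Δ` in all unital star representations of `P` -/
def MaxGap (P : Set (H →L[ℂ] H)) (Δ : H →L[ℂ] H) : Prop :=
  ∃ c : ℝ, 0 < c ∧ ∀ (K : Type) [NormedAddCommGroup K] [InnerProductSpace ℂ K] [CompleteSpace K]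
    (π : (H →L[ℂ] H) → (K →L[ℂ] K)), IsStarHomOn P π →
    spectrum ℂ (π Δ) ⊆ {z : ℂ | z = 0 ∨ (z.im = 0 ∧ c ≤ z.re)}

/-- `Δ ^ 2 - c Δ` is a sum of squares in `P` for some `c > 0` -/
def SOSGap (P : Set (H →L[ℂ] H)) (Δ : H →L[ℂ] H) : Prop :=
  ∃ c : ℝ, 0 < c ∧ IsSOS P (Δ ^ 2 - (c : ℂ) • Δ)

theorem roe_iff (G : SimpleGraph X) (T : L2 X →L[ℂ] L2 X) :
    T ∈ RoeAlg G (dl X) ↔ T ∈ Kaz.FPG G := by
  refine ⟨fun ⟨R, _, h⟩ => ⟨R, fun x y h1 => ?_⟩, fun ⟨R, h⟩ => ⟨R + 1, by omega, fun x y h1 => ?_⟩⟩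
  · exact (not_le.mp fun h2 => h1 ((Roe.inner_δ y _).symm.trans (h x y h2))).le
  · by_contra h2
    have := h1.trans (h x y fun h3 => h2 ((Roe.inner_δ y _).trans h3))
    norm_cast at this
    omega

open Kaz

theorem result : ∃ (X : Type) (G : SimpleGraph X) (l : X → ℕ) (Δ : L2 X →L[ℂ] L2 X),
    IsBox G l ∧ IsLaplacian G Δ ∧ MaxGap (RoeAlg G (dl X)) Δ ∧ ¬ SOSGap (RoeAlg G (dl X)) Δ := by
  classical
  have m := fun T => (roe_iff B1.G T).mpr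
  refine ⟨_, B1.G, B1.l, B1.L0 + B1.D, ⟨fun x y h => (B1.adj_lev h).symm,
    fun i => (B1.fin (i + 1)).subset fun x hx => by simp_all,
    tendsto_atTop_mono B1_card tendsto_id, 13, fun x => ?_⟩, B1.lap,
    ⟨1 / 2, by norm_num, fun K _ _ _ π ⟨_, h⟩ => ?_⟩, fun ⟨c, hc, n, ξ, h, h'⟩ =>
      B1_sos ξ (fun k => (roe_iff _ _).mp (h k)) hc (by rw [← sq]; exact h')⟩
  · rw [← Set.Finite.cast_ncard_eq (by rw [B1.nbr]; exact Finset.finite_toSet _), B1.deg]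
    split_ifs <;> norm_num
  · exact B1.geomT B1_orb ⟨fun S hS T hT => (h S (m S hS) T (m T hT)).1,
      fun S hS T hT => (h S (m S hS) T (m T hT)).2.1,
      fun a T hT => (h T (m T hT) T (m T hT)).2.2.1 a, fun T hT => (h T (m T hT) T (m T hT)).2.2.2⟩

end Pool.Agent.Results.MP_99d66e_al.NoSOS
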